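import Mathlib

set_option autoImplicit false

namespace Pool.Agent.H587R3

open Finset

/-- A lower triangular product with nonzero diagonal bounds the inner dimension from below. -/
lemma card_of_triangular {K ι : Type*} [Field K] [Fintype ι] {n : ℕ}
    (A : Matrix (Fin n) ι K) (B : Matrix ι (Fin n) K)
    (htri : ∀ i j, i < j → (A * B) i j = 0) (hd : ∀ i, (A * B) i i ≠ 0) :
    n ≤ Fintype.card ι := by
  classical
  have h1 : (A * B).det ≠ 0 := by
    rw [Matrix.det_of_isLowerTriangular]
    · exact Finset.prod_ne_zero_iff.mpr fun i _ => hd i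
    · intro i j hij
      exact htri i j (by simpa using hij)
  have h2 : (A * B).rank = n := by
    have := Matrix.rank_of_isUnit (A * B) ((Matrix.isUnit_iff_isUnit_det _).2 (isUnit_iff_ne_zero.2 h1))
    simpa using this
  have h3 := Matrix.rank_mul_le_left A B
  have h4 := Matrix.rank_le_card_width A
  omega

/-- The moment matrix of a weighted finite point configuration: if the moments
`∑ w_l α_l ^ (2^(a i) + 2^(b j))` form a lower triangular matrix with nonzero diagonal, then there are
at least as many points as rows. -/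
lemma card_of_moments {K ι : Type*} [Field K] [Fintype ι] {n : ℕ}
    (w α : ι → K) (a b : Fin n → ℕ)
    (htri : ∀ i j, i < j → ∑ l, w l * α l ^ (2 ^ a i + 2 ^ b j) = 0)
    (hd : ∀ i, ∑ l, w l * α l ^ (2 ^ a i + 2 ^ b i) ≠ 0) :
    n ≤ Fintype.card ι := by
  have key : ∀ i j, ((Matrix.of fun (i : Fin n) (l : ι) => w l * α l ^ (2 ^ a i)) *
      (Matrix.of fun (l : ι) (j : Fin n) => α l ^ (2 ^ b j))) i j =
      ∑ l, w l * α l ^ (2 ^ a i + 2 ^ b j) := by
    intro i j
    rw [Matrix.mul_apply]
    apply Finset.sum_congr rfl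
    intro l _
    simp only [Matrix.of_apply]
    rw [pow_add]; ring
  apply card_of_triangular (Matrix.of fun (i : Fin n) (l : ι) => w l * α l ^ (2 ^ a i))
      (Matrix.of fun (l : ι) (j : Fin n) => α l ^ (2 ^ b j))
  · intro i j hij
    rw [key]; exact htri i j hij
  · intro i
    rw [key]; exact hd i

/-- If a vector is not in a subspace of `Fin k → ZMod 2`, some functional separates it. -/
lemma exists_functional {k : ℕ} (V : Submodule (ZMod 2) (Fin k → ZMod 2)) (v : Fin k → ZMod 2)
    (hv : v ∉ V) :
    ∃ w : Fin k → ZMod 2, (∀ u ∈ V, ∑ i, w i * u i = 0) ∧ ∑ i, w i * v i ≠ 0 := by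
  obtain ⟨f, hf, hfV⟩ := Submodule.exists_le_ker_of_notMem hv
  refine ⟨fun i => f (Pi.single i 1), ?_, ?_⟩
  · intro u hu
    have h0 : f u = 0 := LinearMap.mem_ker.1 (hfV hu)
    have : f u = ∑ i, f (Pi.single i 1) * u i := by
      conv_lhs => rw [LinearMap.pi_apply_eq_sum_univ f u]
      apply Finset.sum_congr rfl
      intro i _
      rw [smul_eq_mul, mul_comm]
      congr 1
      congr 1
      ext j
      simp [Pi.single_apply, eq_comm]
    rw [← this]; exact h0
  · have : f v = ∑ i, f (Pi.single i 1) * v i := by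
      conv_lhs => rw [LinearMap.pi_apply_eq_sum_univ f v]
      apply Finset.sum_congr rfl
      intro i _
      rw [smul_eq_mul, mul_comm]
      congr 1
      congr 1
      ext j
      simp [Pi.single_apply, eq_comm]
    rw [← this]; exact hf

end Pool.Agent.H587R3
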