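import Pool.Agent.H587R3.Match

set_option autoImplicit false

/-! Counting for the switching lemma. -/

namespace Pool.Agent.H587R3

open Finset

variable {N : ℕ}

lemma Legal.card_le_pow (M σ : Finset (Edge N)) (D : Finset (Finset (Edge N)))
    (hD : ∀ β ∈ D, Legal M σ β) :
    D.card ≤ ((freeH M).card * (freeP M).card) ^ σ.card := by
  classical
  let Φ : ((σ → freeH M) × (σ → freeP M)) → Finset (Edge N) := fun fg =>
    (univ.image fun e : σ => ((e.1.1, (fg.1 e).1) : Edge N)) ∪
      (univ.image fun e : σ => (((fg.2 e).1, e.1.2) : Edge N))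
  have hsub : D ⊆ univ.image Φ := by
    intro β hβ
    have hL := hD β hβ
    have c1 : ∀ e : σ, ∃ j : freeH M, (e.1.1, j.1) ∈ β := by
      intro e
      obtain ⟨⟨e', he', h1⟩, -⟩ := hL.cover e.1 e.2
      refine ⟨⟨e'.2, mem_freeH.2 fun a ha => (hL.apart a ha e' he').2⟩, ?_⟩
      rw [← h1]; exact he'
    have c2 : ∀ e : σ, ∃ i : freeP M, (i.1, e.1.2) ∈ β := by
      intro e
      obtain ⟨-, ⟨e', he', h1⟩⟩ := hL.cover e.1 e.2
      refine ⟨⟨e'.1, mem_freeP.2 fun a ha => (hL.apart a ha e' he').1⟩, ?_⟩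
      rw [← h1]; exact he'
    choose f hf using c1
    choose g hg using c2
    refine mem_image.2 ⟨(f, g), mem_univ _, ?_⟩
    ext e'
    simp only [Φ, mem_union, mem_image, mem_univ, true_and]
    constructor
    · rintro (⟨e, rfl⟩ | ⟨e, rfl⟩)
      · exact hf e
      · exact hg e
    · intro he'
      obtain ⟨e, he, h1⟩ := hL.touch e' he'
      rcases h1 with h1 | h1
      · exact Or.inl ⟨⟨e, he⟩, hL.isM _ (hf ⟨e, he⟩) _ he' (Or.inl h1.symm)⟩
      · exact Or.inr ⟨⟨e, he⟩, hL.isM _ (hg ⟨e, he⟩) _ he' (Or.inr h1.symm)⟩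
  refine (card_le_card hsub).trans (card_image_le.trans ?_)
  rw [card_univ, Fintype.card_prod, Fintype.card_fun, Fintype.card_fun, mul_pow]
  simp

open Classical in
/-- all sets decodable from `X` -/
noncomputable def dec (F : List (Finset (Edge N))) (s : ℕ) (X : Finset (Edge N)) :
    Finset (Finset (Edge N)) := univ.filter fun S => Dp F s X S

lemma mem_dec {F : List (Finset (Edge N))} {s : ℕ} {X S : Finset (Edge N)} :
    S ∈ dec F s X ↔ Dp F s X S := by
  classical
  simp [dec]

lemma sum_geo (x s : ℕ) : x ^ s + ∑ a ∈ Icc 1 s, x ^ a * (2 * x) ^ (s - a) = (2 * x) ^ s := by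
  induction s with
  | zero => simp
  | succ s ih =>
    rw [← Finset.insert_Icc_right_eq_Icc_add_one (by omega), sum_insert (by simp)]
    have : ∑ a ∈ Icc 1 s, x ^ a * (2 * x) ^ (s + 1 - a) =
        2 * x * ∑ a ∈ Icc 1 s, x ^ a * (2 * x) ^ (s - a) := by
      rw [mul_sum]
      refine sum_congr rfl fun a ha => ?_
      rw [mem_Icc] at ha
      rw [show s + 1 - a = (s - a) + 1 by omega, pow_succ]
      ring
    rw [this, pow_succ (2 * x) s, ← ih]
    simp
    ring

lemma card_dec_le {F : List (Finset (Edge N))} {k ℓ : ℕ} (hℓ : 1 ≤ ℓ)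
    (hF : ∀ τ ∈ F, τ.card ≤ k) :
    ∀ s : ℕ, ∀ X : Finset (Edge N), IsM X → N + s ≤ X.card + ℓ →
      (dec F s X).card ≤ (2 * (k * (ℓ * (ℓ + 1)))) ^ s := by
  classical
  intro s
  induction s using Nat.strong_induction_on with
  | _ s ih =>
    intro X hX hN
    rcases Nat.eq_zero_or_pos s with rfl | hs
    · have : dec F 0 X ⊆ {∅} := by
        intro S hS
        rw [mem_dec] at hS
        rw [mem_singleton]
        cases hS with
        | zero => rfl
        | last h h1 h2 => exact card_eq_zero.1 h2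
        | step h h1 h0 h2 => exact absurd (card_pos.2 h0) (by omega)
      simpa using card_le_card this
    · cases hf : first F X with
      | none =>
        have : dec F s X ⊆ ∅ := by
          intro S hS
          rw [mem_dec] at hS
          cases hS with
          | zero => omega
          | last h h1 h2 => rw [hf] at h; exact absurd h (by simp)
          | step h h1 h0 h2 => rw [hf] at h; exact absurd h (by simp)
        rw [subset_empty.1 this]; simp
      | some τ =>
        have hτ := first_some hf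
        have hτk := hF τ hτ.2
        let B : Finset (Edge N) → Finset (Finset (Edge N)) := fun σ =>
          univ.filter fun β => Legal (X \ σ) σ β
        let E : ℕ → Finset (Finset (Edge N)) := fun a =>
          (powersetCard a τ).biUnion fun σ => (B σ).biUnion fun β =>
            (dec F (s - a) ((X \ σ) ∪ β)).image fun S => σ ∪ S
        have hsub : dec F s X ⊆ powersetCard s τ ∪ (Icc 1 s).biUnion E := by
          intro S hS
          rw [mem_dec] at hS
          cases hS with
          | zero => omega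
          | last h h1 h2 =>
            rw [hf, Option.some.injEq] at h
            subst h
            exact mem_union_left _ (mem_powersetCard.2 ⟨h1, h2⟩)
          | @step _ _ _ σ β S' h h1 h0 h2 hβ h3 =>
            rw [hf, Option.some.injEq] at h
            subst h
            refine mem_union_right _ (mem_biUnion.2 ⟨σ.card, ?_, ?_⟩)
            · rw [mem_Icc]; exact ⟨card_pos.2 h0, h2⟩
            · refine mem_biUnion.2 ⟨σ, mem_powersetCard.2 ⟨h1, rfl⟩, mem_biUnion.2 ⟨β, ?_, ?_⟩⟩
              · simp only [B, mem_filter, mem_univ, true_and]; exact hβ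
              · exact mem_image.2 ⟨S', mem_dec.2 h3, rfl⟩
        set A := ℓ * (ℓ + 1) with hA
        have hE : ∀ a ∈ Icc 1 s, (E a).card ≤ (k * A) ^ a * (2 * (k * A)) ^ (s - a) := by
          intro a ha
          rw [mem_Icc] at ha
          have h1 : ∀ σ ∈ powersetCard a τ, ((B σ).biUnion fun β =>
              (dec F (s - a) ((X \ σ) ∪ β)).image fun S => σ ∪ S).card ≤
              A ^ a * (2 * (k * A)) ^ (s - a) := by
            intro σ hσ
            rw [mem_powersetCard] at hσ
            have hXσ : X.card - σ.card ≤ (X \ σ).card := le_card_sdiff _ _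
            have hXm : IsM (X \ σ) := hX.subset sdiff_subset
            have hB : (B σ).card ≤ A ^ a := by
              have h2 := Legal.card_le_pow (X \ σ) σ (B σ) (by
                intro β hβ
                simpa [B] using hβ)
              rw [hσ.2] at h2
              refine h2.trans (Nat.pow_le_pow_left ?_ _)
              rw [hXm.card_freeH, hXm.card_freeP]
              exact Nat.mul_le_mul (by omega) (by omega)
            refine card_biUnion_le.trans ?_
            refine (sum_le_card_nsmul _ _ ((2 * (k * A)) ^ (s - a)) ?_).trans ?_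
            · intro β hβ
              have hL : Legal (X \ σ) σ β := by simpa [B] using hβ
              refine card_image_le.trans ?_
              refine ih (s - a) (by omega) _ (hXm.union hL.isM hL.apart) ?_
              have : (X \ σ).card ≤ ((X \ σ) ∪ β).card := card_le_card subset_union_left
              omega
            · rw [smul_eq_mul]
              exact Nat.mul_le_mul_right _ hB
          refine card_biUnion_le.trans ?_
          refine (sum_le_card_nsmul _ _ _ h1).trans ?_
          rw [smul_eq_mul, card_powersetCard, mul_pow k A a, mul_assoc (k ^ a)]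
          refine Nat.mul_le_mul_right _ ?_
          exact (Nat.choose_le_pow τ.card a).trans (Nat.pow_le_pow_left hτk _)
        have hA1 : 1 ≤ A := by rw [hA]; nlinarith
        calc (dec F s X).card ≤ (powersetCard s τ ∪ (Icc 1 s).biUnion E).card :=
              card_le_card hsub
          _ ≤ (powersetCard s τ).card + ((Icc 1 s).biUnion E).card := card_union_le _ _
          _ ≤ (k * A) ^ s + ∑ a ∈ Icc 1 s, (k * A) ^ a * (2 * (k * A)) ^ (s - a) := by
              refine Nat.add_le_add ?_ (card_biUnion_le.trans (sum_le_sum hE))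
              rw [card_powersetCard]
              exact (Nat.choose_le_pow τ.card s).trans
                (Nat.pow_le_pow_left (hτk.trans (Nat.le_mul_of_pos_right _ hA1)) _)
          _ = (2 * (k * A)) ^ s := sum_geo _ _

open Classical in
/-- the matchings of size `r` -/
noncomputable def Mt (N r : ℕ) : Finset (Finset (Edge N)) :=
  univ.filter fun M => IsM M ∧ M.card = r

lemma mem_Mt {r : ℕ} {M : Finset (Edge N)} : M ∈ Mt N r ↔ IsM M ∧ M.card = r := by
  classical
  simp [Mt]

lemma Mt_nonempty {r : ℕ} (hr : r ≤ N) : (Mt N r).Nonempty := by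
  induction r with
  | zero => exact ⟨∅, mem_Mt.2 ⟨by intro e he; simp at he, rfl⟩⟩
  | succ r ih =>
    obtain ⟨M, hM⟩ := ih (by omega)
    rw [mem_Mt] at hM
    have h1 : (freeP M).Nonempty := by
      rw [← card_pos, hM.1.card_freeP]; omega
    have h2 : (freeH M).Nonempty := by
      rw [← card_pos, hM.1.card_freeH]; omega
    obtain ⟨i, hi⟩ := h1
    obtain ⟨j, hj⟩ := h2
    refine ⟨insert (i, j) M, mem_Mt.2 ⟨hM.1.insert hi hj, ?_⟩⟩
    rw [card_insert_of_notMem, hM.2]
    intro h3
    exact mem_freeP.1 hi _ h3 rfl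

lemma card_Mt_succ (r : ℕ) :
    (Mt N (r + 1)).card * (r + 1) ≤ (Mt N r).card * ((N - r) * (N + 1 - r)) := by
  classical
  refine card_mul_le_card_mul (fun M' M : Finset (Edge N) => M ⊆ M') ?_ ?_
  · intro M' hM'
    rw [mem_Mt] at hM'
    have : (powersetCard r M').card = r + 1 := by
      rw [card_powersetCard, hM'.2, Nat.choose_succ_self_right]
    rw [← this]
    refine card_le_card ?_
    intro M hM
    rw [mem_powersetCard] at hM
    rw [mem_bipartiteAbove]
    exact ⟨mem_Mt.2 ⟨hM'.1.subset hM.1, hM.2⟩, hM.1⟩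
  · intro M hM
    rw [mem_Mt] at hM
    have h1 : (freeH M).card * (freeP M).card = (N - r) * (N + 1 - r) := by
      rw [hM.1.card_freeH, hM.1.card_freeP, hM.2]
    rw [← h1, mul_comm, ← card_product]
    refine (card_le_card ?_).trans (card_image_le (f := fun e : Edge N => insert e M))
    intro M' hM'
    rw [mem_bipartiteBelow, mem_Mt] at hM'
    obtain ⟨⟨h2, h3⟩, h4⟩ := hM'
    have h5 : (M' \ M).card = 1 := by
      rw [card_sdiff_of_subset h4]; omega
    obtain ⟨e, he⟩ := card_eq_one.1 h5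
    have he' : e ∈ M' \ M := by rw [he]; exact mem_singleton_self _
    rw [mem_sdiff] at he'
    refine mem_image.2 ⟨e, ?_, ?_⟩
    · rw [mem_product]
      refine ⟨mem_freeP.2 fun a ha h6 => he'.2 ?_, mem_freeH.2 fun a ha h6 => he'.2 ?_⟩
      · rw [← h2 a (h4 ha) e he'.1 (Or.inl h6)]; exact ha
      · rw [← h2 a (h4 ha) e he'.1 (Or.inr h6)]; exact ha
    · rw [insert_eq, ← he, sdiff_union_of_subset h4]

lemma card_Mt_add {ℓ : ℕ} (hℓ : ℓ ≤ N) (s : ℕ) :
    (Mt N (N - ℓ + s)).card * (N - ℓ) ^ s ≤ (Mt N (N - ℓ)).card * (ℓ * (ℓ + 1)) ^ s := by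
  induction s with
  | zero => simp
  | succ s ih =>
    have h1 := card_Mt_succ (N := N) (N - ℓ + s)
    have h2 : (N - (N - ℓ + s)) * (N + 1 - (N - ℓ + s)) ≤ ℓ * (ℓ + 1) :=
      Nat.mul_le_mul (by omega) (by omega)
    calc (Mt N (N - ℓ + (s + 1))).card * (N - ℓ) ^ (s + 1)
        = ((Mt N (N - ℓ + s + 1)).card * (N - ℓ)) * (N - ℓ) ^ s := by
          rw [← add_assoc]; ring
      _ ≤ ((Mt N (N - ℓ + s + 1)).card * (N - ℓ + s + 1)) * (N - ℓ) ^ s :=
          Nat.mul_le_mul_right _ (Nat.mul_le_mul_left _ (by omega))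
      _ ≤ ((Mt N (N - ℓ + s)).card * (ℓ * (ℓ + 1))) * (N - ℓ) ^ s :=
          Nat.mul_le_mul_right _ (h1.trans (Nat.mul_le_mul_left _ h2))
      _ = ((Mt N (N - ℓ + s)).card * (N - ℓ) ^ s) * (ℓ * (ℓ + 1)) := by ring
      _ ≤ ((Mt N (N - ℓ)).card * (ℓ * (ℓ + 1)) ^ s) * (ℓ * (ℓ + 1)) :=
          Nat.mul_le_mul_right _ ih
      _ = _ := by ring

open Classical in
/-- the restrictions that fail for `F` -/
noncomputable def bad (F : List (Finset (Edge N))) (ℓ s : ℕ) : Finset (Finset (Edge N)) :=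
  (Mt N (N - ℓ)).filter fun M => Path F s M

lemma card_bad_le {F : List (Finset (Edge N))} {k ℓ : ℕ} (hℓ : 1 ≤ ℓ) (hℓN : ℓ ≤ N)
    (hF : ∀ τ ∈ F, τ.card ≤ k) (s : ℕ) :
    (bad F ℓ s).card ≤ (Mt N (N - ℓ + s)).card * (2 * (k * (ℓ * (ℓ + 1)))) ^ s := by
  classical
  have hsub : bad F ℓ s ⊆ (Mt N (N - ℓ + s)).biUnion fun X =>
      (dec F s X).image fun S => X \ S := by
    intro M hM
    unfold bad at hM
    rw [mem_filter, mem_Mt] at hM
    obtain ⟨⟨h1, h2⟩, h3⟩ := hM
    obtain ⟨S, hS, hap, hSm, hD⟩ := encode h3 h1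
    refine mem_biUnion.2 ⟨M ∪ S, mem_Mt.2 ⟨h1.union hSm hap, ?_⟩, mem_image.2 ⟨S, ?_, ?_⟩⟩
    · rw [card_union_of_disjoint hap.disjoint, h2, hS]
    · exact mem_dec.2 hD
    · exact union_sdiff_cancel_right hap.disjoint
  refine (card_le_card hsub).trans (card_biUnion_le.trans ?_)
  refine (sum_le_card_nsmul _ _ ((2 * (k * (ℓ * (ℓ + 1)))) ^ s) ?_).trans (by rw [smul_eq_mul])
  intro X hX
  rw [mem_Mt] at hX
  exact card_image_le.trans (card_dec_le hℓ hF s X hX.1 (by omega))

/-- the switching lemma, in the form used: a common good restriction -/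
theorem exists_good {ι : Type*} (L : Finset ι) (F : ι → List (Finset (Edge N))) {k ℓ s : ℕ}
    (hℓ : 1 ≤ ℓ) (hℓN : ℓ ≤ N) (hF : ∀ i ∈ L, ∀ τ ∈ F i, τ.card ≤ k)
    (hnum : L.card * (2 * (k * (ℓ * (ℓ + 1))) * (ℓ * (ℓ + 1))) ^ s < (N - ℓ) ^ s) :
    ∃ ρ : Finset (Edge N), IsM ρ ∧ ρ.card = N - ℓ ∧ ∀ i ∈ L, ¬ Path (F i) s ρ := by
  classical
  by_contra hcon
  push Not at hcon
  have hsub : Mt N (N - ℓ) ⊆ L.biUnion fun i => bad (F i) ℓ s := by
    intro M hM
    have hM' := mem_Mt.1 hM
    obtain ⟨i, hi, hp⟩ := hcon M hM'.1 hM'.2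
    exact mem_biUnion.2 ⟨i, hi, by unfold bad; exact mem_filter.2 ⟨hM, hp⟩⟩
  have h1 : (Mt N (N - ℓ)).card ≤
      L.card * ((Mt N (N - ℓ + s)).card * (2 * (k * (ℓ * (ℓ + 1)))) ^ s) := by
    refine (card_le_card hsub).trans (card_biUnion_le.trans ?_)
    refine (sum_le_card_nsmul _ _ _ fun i hi => card_bad_le hℓ hℓN (hF i hi) s).trans ?_
    rw [smul_eq_mul]
  have h2 := card_Mt_add hℓN s
  have hpos : 0 < (Mt N (N - ℓ)).card := card_pos.2 (Mt_nonempty (by omega))
  have h3 : (Mt N (N - ℓ)).card * (N - ℓ) ^ s ≤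
      (Mt N (N - ℓ)).card * (L.card * (2 * (k * (ℓ * (ℓ + 1))) * (ℓ * (ℓ + 1))) ^ s) := by
    calc (Mt N (N - ℓ)).card * (N - ℓ) ^ s
        ≤ (L.card * ((Mt N (N - ℓ + s)).card * (2 * (k * (ℓ * (ℓ + 1)))) ^ s)) *
          (N - ℓ) ^ s := Nat.mul_le_mul_right _ h1
      _ = L.card * (2 * (k * (ℓ * (ℓ + 1)))) ^ s *
          ((Mt N (N - ℓ + s)).card * (N - ℓ) ^ s) := by ring
      _ ≤ L.card * (2 * (k * (ℓ * (ℓ + 1)))) ^ s *
          ((Mt N (N - ℓ)).card * (ℓ * (ℓ + 1)) ^ s) := Nat.mul_le_mul_left _ h2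
      _ = _ := by rw [mul_pow (2 * (k * (ℓ * (ℓ + 1)))) (ℓ * (ℓ + 1))]; ring
  exact absurd (Nat.le_of_mul_le_mul_left h3 hpos) (not_le.2 hnum)

end Pool.Agent.H587R3
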