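import Mathlib

set_option autoImplicit false

/-!
Matchings between `N + 1` pigeons and `N` holes, canonical decision trees for DNFs over matchings, and
the encoding behind the switching lemma.
-/

namespace Pool.Agent.H587R3

open Finset

/-- Edges between pigeons and holes. -/
abbrev Edge (N : ℕ) : Type := Fin (N + 1) × Fin N

variable {N : ℕ}

/-- `M` is a (partial) matching. -/
def IsM (M : Finset (Edge N)) : Prop :=
  ∀ e ∈ M, ∀ e' ∈ M, (e.1 = e'.1 ∨ e.2 = e'.2) → e = e'

/-- no common vertex -/
def Apart (M σ : Finset (Edge N)) : Prop := ∀ e ∈ M, ∀ e' ∈ σ, e.1 ≠ e'.1 ∧ e.2 ≠ e'.2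

lemma IsM.subset {M M' : Finset (Edge N)} (h : IsM M) (hs : M' ⊆ M) : IsM M' :=
  fun e he e' he' h1 => h e (hs he) e' (hs he') h1

lemma Apart.symm {M σ : Finset (Edge N)} (h : Apart M σ) : Apart σ M :=
  fun e he e' he' => ⟨(h e' he' e he).1.symm, (h e' he' e he).2.symm⟩

lemma Apart.mono {M σ M' σ' : Finset (Edge N)} (h : Apart M σ) (h1 : M' ⊆ M) (h2 : σ' ⊆ σ) :
    Apart M' σ' := fun e he e' he' => h e (h1 he) e' (h2 he')

lemma Apart.union_left {M M' σ : Finset (Edge N)} (h : Apart M σ) (h' : Apart M' σ) :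
    Apart (M ∪ M') σ := by
  intro e he e' he'
  rcases mem_union.1 he with h1 | h1
  · exact h e h1 e' he'
  · exact h' e h1 e' he'

lemma Apart.union_right {M σ σ' : Finset (Edge N)} (h : Apart M σ) (h' : Apart M σ') :
    Apart M (σ ∪ σ') := (h.symm.union_left h'.symm).symm

lemma Apart.disjoint {M σ : Finset (Edge N)} (h : Apart M σ) : Disjoint M σ :=
  disjoint_left.2 fun e he he' => (h e he e he').1 rfl

lemma IsM.union {M σ : Finset (Edge N)} (h : IsM M) (h' : IsM σ) (ha : Apart M σ) :
    IsM (M ∪ σ) := by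
  intro e he e' he' h1
  rcases mem_union.1 he with h2 | h2 <;> rcases mem_union.1 he' with h3 | h3
  · exact h e h2 e' h3 h1
  · have := ha e h2 e' h3
    rcases h1 with h1 | h1
    · exact absurd h1 this.1
    · exact absurd h1 this.2
  · have := ha e' h3 e h2
    rcases h1 with h1 | h1
    · exact absurd h1.symm this.1
    · exact absurd h1.symm this.2
  · exact h' e h2 e' h3 h1

lemma IsM.apart_sdiff {M τ : Finset (Edge N)} (h : IsM (M ∪ τ)) : Apart M (τ \ M) := by
  intro e he e' he'
  rw [mem_sdiff] at he'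
  constructor
  · intro h1
    have := h e (mem_union_left _ he) e' (mem_union_right _ he'.1) (Or.inl h1)
    exact he'.2 (this ▸ he)
  · intro h1
    have := h e (mem_union_left _ he) e' (mem_union_right _ he'.1) (Or.inr h1)
    exact he'.2 (this ▸ he)

/-- the free pigeons -/
def freeP (M : Finset (Edge N)) : Finset (Fin (N + 1)) := univ \ M.image Prod.fst

/-- the free holes -/
def freeH (M : Finset (Edge N)) : Finset (Fin N) := univ \ M.image Prod.snd

lemma mem_freeP {M : Finset (Edge N)} {i : Fin (N + 1)} : i ∈ freeP M ↔ ∀ e ∈ M, e.1 ≠ i := by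
  unfold freeP
  simp only [mem_sdiff, mem_univ, mem_image, true_and, not_exists, not_and]

lemma mem_freeH {M : Finset (Edge N)} {j : Fin N} : j ∈ freeH M ↔ ∀ e ∈ M, e.2 ≠ j := by
  unfold freeH
  simp only [mem_sdiff, mem_univ, mem_image, true_and, not_exists, not_and]

lemma IsM.card_fst {M : Finset (Edge N)} (h : IsM M) : (M.image Prod.fst).card = M.card :=
  card_image_of_injOn fun e he e' he' h1 => h e he e' he' (Or.inl h1)

lemma IsM.card_snd {M : Finset (Edge N)} (h : IsM M) : (M.image Prod.snd).card = M.card :=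
  card_image_of_injOn fun e he e' he' h1 => h e he e' he' (Or.inr h1)

lemma IsM.card_le {M : Finset (Edge N)} (h : IsM M) : M.card ≤ N := by
  rw [← h.card_snd]
  exact (card_le_univ _).trans (by simp)

lemma IsM.card_freeP {M : Finset (Edge N)} (h : IsM M) : (freeP M).card = N + 1 - M.card := by
  unfold freeP
  rw [card_univ_sdiff, Fintype.card_fin, h.card_fst]

lemma IsM.card_freeH {M : Finset (Edge N)} (h : IsM M) : (freeH M).card = N - M.card := by
  unfold freeH
  rw [card_univ_sdiff, Fintype.card_fin, h.card_snd]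

lemma IsM.insert {M : Finset (Edge N)} (h : IsM M) {i : Fin (N + 1)} {j : Fin N}
    (hi : i ∈ freeP M) (hj : j ∈ freeH M) : IsM (insert (i, j) M) := by
  rw [insert_eq, union_comm]
  apply h.union
  · intro e he e' he' _
    rw [mem_singleton] at he he'
    rw [he, he']
  · intro e he e' he'
    rw [mem_singleton] at he'
    subst he'
    exact ⟨mem_freeP.1 hi e he, mem_freeH.1 hj e he⟩

/-- extension covering a set of pigeons, avoiding some holes -/
lemma exists_cover {M : Finset (Edge N)} (h : IsM M) (H : Finset (Fin N))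
    (I : Finset (Fin (N + 1))) (hc : M.card + I.card + H.card ≤ N) :
    ∃ M', M ⊆ M' ∧ IsM M' ∧ M'.card ≤ M.card + I.card ∧ (∀ i ∈ I, ∃ e ∈ M', e.1 = i) ∧
      ∀ e ∈ M', e ∉ M → e.2 ∉ H := by
  classical
  induction I using Finset.induction_on with
  | empty => exact ⟨M, Subset.refl _, h, by simp, by simp, fun e he he' => absurd he he'⟩
  | @insert i I hi ih =>
    rw [card_insert_of_notMem hi] at hc
    obtain ⟨M', h1, h2, h3, h4, h5⟩ := ih (by omega)
    by_cases hcov : ∃ e ∈ M', e.1 = i
    · refine ⟨M', h1, h2, by rw [card_insert_of_notMem hi]; omega, ?_, h5⟩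
      intro i' hi'
      rcases mem_insert.1 hi' with rfl | h6
      · exact hcov
      · exact h4 i' h6
    · push Not at hcov
      have hne : (freeH M' \ H).Nonempty := by
        rw [← card_pos]
        have := h2.card_freeH
        have h6 := le_card_sdiff H (freeH M')
        omega
      obtain ⟨j, hj⟩ := hne
      rw [mem_sdiff] at hj
      refine ⟨insert (i, j) M', h1.trans (subset_insert _ _), h2.insert (mem_freeP.2 hcov) hj.1,
        ?_, ?_, ?_⟩
      · rw [card_insert_of_notMem hi]
        exact (card_insert_le _ _).trans (by omega)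
      · intro i' hi'
        rcases mem_insert.1 hi' with rfl | h6
        · exact ⟨(i', j), mem_insert_self _ _, rfl⟩
        · obtain ⟨e, he, h7⟩ := h4 i' h6
          exact ⟨e, mem_insert_of_mem he, h7⟩
      · intro e he he'
        rcases mem_insert.1 he with rfl | h6
        · exact hj.2
        · exact h5 e h6 he'

/-- extension covering a hole -/
lemma exists_coverH {M : Finset (Edge N)} (h : IsM M) (j : Fin N) :
    ∃ M', M ⊆ M' ∧ IsM M' ∧ M'.card ≤ M.card + 1 ∧ ∃ e ∈ M', e.2 = j := by
  by_cases hcov : ∃ e ∈ M, e.2 = j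
  · exact ⟨M, Subset.refl _, h, by omega, hcov⟩
  · push Not at hcov
    have hne : (freeP M).Nonempty := by
      rw [← card_pos, h.card_freeP]
      have := h.card_le
      omega
    obtain ⟨i, hi⟩ := hne
    exact ⟨insert (i, j) M, subset_insert _ _, h.insert hi (mem_freeH.2 hcov),
      card_insert_le _ _, (i, j), mem_insert_self _ _, rfl⟩

/-- extension covering all vertices of a set of edges -/
lemma exists_coverE {M : Finset (Edge N)} (h : IsM M) (σ : Finset (Edge N))
    (hc : M.card + 2 * σ.card ≤ N) :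
    ∃ M', M ⊆ M' ∧ IsM M' ∧ M'.card ≤ M.card + 2 * σ.card ∧
      ∀ e ∈ σ, (∃ e' ∈ M', e'.1 = e.1) ∧ ∃ e' ∈ M', e'.2 = e.2 := by
  classical
  induction σ using Finset.induction_on with
  | empty => exact ⟨M, Subset.refl _, h, by simp, by simp⟩
  | @insert a σ ha ih =>
    rw [card_insert_of_notMem ha] at hc
    obtain ⟨M1, h1, h2, h3, h4⟩ := ih (by omega)
    obtain ⟨M2, h5, h6, h7, h8⟩ := exists_coverH h2 a.2
    obtain ⟨M3, h9, h10, h11, h12, -⟩ := exists_cover h6 ∅ {a.1} (by simp; omega)
    refine ⟨M3, h1.trans (h5.trans h9), h10, ?_, ?_⟩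
    · rw [card_insert_of_notMem ha]
      simp at h11
      omega
    · intro e he
      rcases mem_insert.1 he with rfl | he
      · obtain ⟨e', he', h13⟩ := h8
        exact ⟨h12 _ (mem_singleton_self _), e', h9 he', h13⟩
      · obtain ⟨⟨e1, h13, h14⟩, e2, h15, h16⟩ := h4 e he
        exact ⟨⟨e1, h9 (h5 h13), h14⟩, e2, h9 (h5 h15), h16⟩

/-- `β` answers the queries of all vertices of `σ` -/
structure Legal (M σ β : Finset (Edge N)) : Prop where
  isM : IsM β
  apart : Apart M β
  cover : ∀ e ∈ σ, (∃ e' ∈ β, e'.1 = e.1) ∧ ∃ e' ∈ β, e'.2 = e.2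
  touch : ∀ e' ∈ β, ∃ e ∈ σ, e'.1 = e.1 ∨ e'.2 = e.2

open Classical in
/-- the first term compatible with `M` -/
noncomputable def first (F : List (Finset (Edge N))) (M : Finset (Edge N)) :
    Option (Finset (Edge N)) := F.find? (fun τ => decide (IsM (M ∪ τ)))

lemma first_some {F : List (Finset (Edge N))} {M τ : Finset (Edge N)} (h : first F M = some τ) :
    IsM (M ∪ τ) ∧ τ ∈ F := by
  classical
  unfold first at h
  have h1 := List.find?_some h
  have h2 := List.mem_of_find?_eq_some h
  exact ⟨by simpa using h1, h2⟩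

lemma first_none {F : List (Finset (Edge N))} {M : Finset (Edge N)} (h : first F M = none) :
    ∀ τ ∈ F, ¬ IsM (M ∪ τ) := by
  classical
  unfold first at h
  rw [List.find?_eq_none] at h
  intro τ hτ
  simpa using h τ hτ

lemma first_ext {F : List (Finset (Edge N))} {M X τ : Finset (Edge N)} (h : first F M = some τ)
    (hMX : M ⊆ X) (hX : IsM (X ∪ τ)) : first F X = some τ := by
  classical
  unfold first at h ⊢
  rw [List.find?_eq_some_iff_append] at h ⊢
  obtain ⟨h1, as, bs, h2, h3⟩ := h
  refine ⟨by simpa using hX, as, bs, h2, ?_⟩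
  intro a ha
  have := h3 a ha
  simp only [Bool.not_eq_eq_eq_not, Bool.not_true, decide_eq_false_iff_not] at this ⊢
  intro h4
  exact this (h4.subset (union_subset_union_left hMX))

/-- there is a canonical path of length at least `s` -/
inductive Path (F : List (Finset (Edge N))) : ℕ → Finset (Edge N) → Prop
  | zero (M : Finset (Edge N)) : Path F 0 M
  | last {s : ℕ} {M τ : Finset (Edge N)} (h : first F M = some τ) (hs : s ≤ (τ \ M).card) :
      Path F s M
  | step {s : ℕ} {M τ β : Finset (Edge N)} (h : first F M = some τ) (h0 : (τ \ M).Nonempty)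
      (hs : (τ \ M).card ≤ s) (hβ : Legal M (τ \ M) β) (hp : Path F (s - (τ \ M).card) (M ∪ β)) :
      Path F s M

/-- the decoding relation -/
inductive Dp (F : List (Finset (Edge N))) : ℕ → Finset (Edge N) → Finset (Edge N) → Prop
  | zero (X : Finset (Edge N)) : Dp F 0 X ∅
  | last {s : ℕ} {X τ σ : Finset (Edge N)} (h : first F X = some τ) (h1 : σ ⊆ τ)
      (h2 : σ.card = s) : Dp F s X σ
  | step {s : ℕ} {X τ σ β S' : Finset (Edge N)} (h : first F X = some τ) (h1 : σ ⊆ τ)
      (h0 : σ.Nonempty) (h2 : σ.card ≤ s) (hβ : Legal (X \ σ) σ β)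
      (h3 : Dp F (s - σ.card) ((X \ σ) ∪ β) S') : Dp F s X (σ ∪ S')

lemma encode {F : List (Finset (Edge N))} {s : ℕ} {M : Finset (Edge N)} (hp : Path F s M) :
    IsM M → ∃ S : Finset (Edge N), S.card = s ∧ Apart M S ∧ IsM S ∧ Dp F s (M ∪ S) S := by
  induction hp with
  | zero M =>
    intro _
    exact ⟨∅, by simp, by intro e _ e' he'; simp at he', by intro e he; simp at he, Dp.zero _⟩
  | @last s M τ h hs =>
    intro hM
    obtain ⟨S, hS, hSc⟩ := Finset.exists_subset_card_eq hs
    have h1 := (first_some h).1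
    have hap := h1.apart_sdiff
    have hSτ : S ⊆ τ := hS.trans sdiff_subset
    refine ⟨S, hSc, hap.mono (Subset.refl _) hS, (h1.subset subset_union_right).subset hSτ, ?_⟩
    refine Dp.last (first_ext h subset_union_left ?_) hSτ hSc
    refine h1.subset ?_
    exact union_subset (union_subset subset_union_left (hSτ.trans subset_union_right))
      subset_union_right
  | @step s M τ β h h0 hs hβ hp ih =>
    intro hM
    set σ := τ \ M with hσ
    have h1 := (first_some h).1
    have hap : Apart M σ := h1.apart_sdiff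
    have hσM : IsM σ := h1.subset (sdiff_subset.trans subset_union_right)
    obtain ⟨S', hS'c, hS'a, hS'm, hD⟩ := ih (hM.union hβ.isM hβ.apart)
    -- S' is apart from M, from β, hence from σ
    have a1 : Apart M S' := hS'a.mono subset_union_left (Subset.refl _)
    have a2 : Apart β S' := hS'a.mono subset_union_right (Subset.refl _)
    have a3 : Apart σ S' := by
      intro e he e' he'
      obtain ⟨⟨b1, hb1, hb1'⟩, b2, hb2, hb2'⟩ := hβ.cover e he
      exact ⟨fun h5 => (a2 b1 hb1 e' he').1 (hb1'.trans h5),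
        fun h5 => (a2 b2 hb2 e' he').2 (hb2'.trans h5)⟩
    have hX : IsM (M ∪ (σ ∪ S')) :=
      hM.union (hσM.union hS'm a3) (hap.union_right a1)
    refine ⟨σ ∪ S', ?_, hap.union_right a1, hσM.union hS'm a3, ?_⟩
    · rw [card_union_of_disjoint a3.disjoint, hS'c]; omega
    · have hτX : τ ⊆ M ∪ (σ ∪ S') := by
        intro e he
        by_cases h6 : e ∈ M
        · exact mem_union_left _ h6
        · exact mem_union_right _ (mem_union_left _ (mem_sdiff.2 ⟨he, h6⟩))
      have hXσ : (M ∪ (σ ∪ S')) \ σ = M ∪ S' := by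
        ext e
        simp only [mem_sdiff, mem_union]
        constructor
        · rintro ⟨h6 | h6 | h6, h7⟩
          · exact Or.inl h6
          · exact absurd h6 h7
          · exact Or.inr h6
        · rintro (h6 | h6)
          · exact ⟨Or.inl h6, fun h7 => (disjoint_left.1 hap.disjoint) h6 h7⟩
          · exact ⟨Or.inr (Or.inr h6), fun h7 => (disjoint_left.1 a3.disjoint) h7 h6⟩
      refine Dp.step (τ := τ) (β := β) (first_ext h subset_union_left ?_) sdiff_subset h0 hs ?_ ?_
      · rw [union_eq_left.2 hτX]; exact hX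
      · rw [hXσ]
        exact ⟨hβ.isM, hβ.apart.union_left a2.symm, hβ.cover, hβ.touch⟩
      · rw [hXσ]
        have : M ∪ S' ∪ β = M ∪ β ∪ S' := by
          rw [union_assoc, union_comm S' β, ← union_assoc]
        rw [this]; exact hD

end Pool.Agent.H587R3
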