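import Mathlib

set_option autoImplicit false

namespace Pool.Agent.H587R3

open Finset

/-- Two different triples with the same first and third power sums give different fifth power sums,
in characteristic two. -/
lemma fifth_ne {K : Type*} [Field K] [CharP K 2] [DecidableEq K] {T T' : Finset K}
    (hT : T.card = 3) (hT' : T'.card = 3) (hne : T ≠ T')
    (h1 : ∑ x ∈ T, x + ∑ x ∈ T', x = 0) (h3 : ∑ x ∈ T, x ^ 3 + ∑ x ∈ T', x ^ 3 = 0) :
    ∑ x ∈ T, x ^ 5 + ∑ x ∈ T', x ^ 5 ≠ 0 := by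
  intro h5
  have hsq : ∀ (S : Finset K) (e : ℕ), ∑ x ∈ S, x ^ (2 * e) = (∑ x ∈ S, x ^ e) ^ 2 := by
    intro S e
    rw [sum_pow_char 2]
    apply Finset.sum_congr rfl
    intro x _
    rw [← pow_mul, mul_comm]
  have hsq2 : ∀ e : ℕ, ∑ x ∈ T, x ^ e + ∑ x ∈ T', x ^ e = 0 →
      ∑ x ∈ T, x ^ (2 * e) + ∑ x ∈ T', x ^ (2 * e) = 0 := by
    intro e he
    rw [hsq, hsq, ← add_pow_char, he]; norm_num
  have hp1 : ∑ x ∈ T, x ^ 1 + ∑ x ∈ T', x ^ 1 = 0 := by simpa using h1
  have hp2 := hsq2 1 hp1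
  have hp4 := hsq2 2 hp2
  have hp0 : ∑ x ∈ T, x ^ 0 + ∑ x ∈ T', x ^ 0 = 0 := by
    have h2 : (2 : K) = 0 := CharTwo.two_eq_zero
    simp only [pow_zero, Finset.sum_const, hT, hT', nsmul_eq_mul, mul_one]
    push_cast
    linear_combination 3 * h2
  have hall : ∀ e < 6, ∑ x ∈ T, x ^ e + ∑ x ∈ T', x ^ e = 0 := by
    intro e he
    interval_cases e
    · exact hp0
    · exact hp1
    · exact hp2
    · exact h3
    · exact hp4
    · exact h5
  obtain ⟨β, hβ, hβ'⟩ : ∃ β ∈ T, β ∉ T' := by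
    by_contra hcon
    push Not at hcon
    exact hne (Finset.eq_of_subset_of_card_le hcon (by omega))
  set g : Polynomial K := (∏ γ ∈ T.erase β, (Polynomial.X - Polynomial.C γ)) *
    ∏ γ ∈ T', (Polynomial.X - Polynomial.C γ) with hg
  have hdeg : g.natDegree < 6 := by
    rw [hg]
    apply lt_of_le_of_lt Polynomial.natDegree_mul_le
    rw [Polynomial.natDegree_finsetProd_X_sub_C_eq_card, Polynomial.natDegree_finsetProd_X_sub_C_eq_card,
      Finset.card_erase_of_mem hβ]
    omega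
  have hsum : ∑ x ∈ T, g.eval x + ∑ x ∈ T', g.eval x = 0 := by
    have e1 : ∀ S : Finset K, ∑ x ∈ S, g.eval x = ∑ e ∈ range 6, g.coeff e * ∑ x ∈ S, x ^ e := by
      intro S
      simp_rw [Polynomial.eval_eq_sum_range' hdeg]
      rw [Finset.sum_comm]
      apply Finset.sum_congr rfl
      intro e _
      rw [Finset.mul_sum]
    rw [e1, e1, ← Finset.sum_add_distrib]
    apply Finset.sum_eq_zero
    intro e he
    rw [← mul_add, hall e (Finset.mem_range.1 he), mul_zero]
  have hz' : ∑ x ∈ T', g.eval x = 0 := by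
    apply Finset.sum_eq_zero
    intro x hx
    rw [hg, Polynomial.eval_mul, Polynomial.eval_prod, Polynomial.eval_prod]
    apply mul_eq_zero_of_right
    exact Finset.prod_eq_zero hx (by simp)
  have hz : ∑ x ∈ T, g.eval x = g.eval β := by
    apply Finset.sum_eq_single_of_mem β hβ
    intro x hx hxβ
    rw [hg, Polynomial.eval_mul, Polynomial.eval_prod, Polynomial.eval_prod]
    apply mul_eq_zero_of_left
    exact Finset.prod_eq_zero (Finset.mem_erase.2 ⟨hxβ, hx⟩) (by simp)
  rw [hz, hz', add_zero, hg, Polynomial.eval_mul, Polynomial.eval_prod, Polynomial.eval_prod,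
    mul_eq_zero] at hsum
  rcases hsum with h | h
  · rw [Finset.prod_eq_zero_iff] at h
    obtain ⟨γ, hγ, h⟩ := h
    simp only [Polynomial.eval_sub, Polynomial.eval_X, Polynomial.eval_C, sub_eq_zero] at h
    subst h
    simp at hγ
  · rw [Finset.prod_eq_zero_iff] at h
    obtain ⟨γ, hγ, h⟩ := h
    simp only [Polynomial.eval_sub, Polynomial.eval_X, Polynomial.eval_C, sub_eq_zero] at h
    subst h
    exact hβ' hγ

/-- In a finite field of characteristic two with at least `16` elements there are six elements with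
vanishing first and third power sums and nonvanishing fifth power sum. -/
lemma exists_six (K : Type*) [Field K] [CharP K 2] [Fintype K] (hK : 16 ≤ Fintype.card K) :
    ∃ α : Fin 6 → K, ∑ l, α l = 0 ∧ ∑ l, α l ^ 3 = 0 ∧ ∑ l, α l ^ 5 ≠ 0 := by
  classical
  have hchoose : ∀ q : ℕ, 16 ≤ q → q * q < q.choose 3 := by
    intro q hq
    obtain ⟨a, rfl⟩ : ∃ a, q = a + 3 := ⟨q - 3, by omega⟩
    have h6 : (a + 3).choose 3 * 6 = (a + 1) * (a + 2) * (a + 3) := by
      have := Nat.descFactorial_eq_factorial_mul_choose (a + 3) 3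
      rw [show Nat.factorial 3 = 6 from rfl] at this
      have h : (a + 3).descFactorial 3 = (a + 1) * (a + 2) * (a + 3) := by
        simp [Nat.descFactorial_succ]
        ring
      linarith
    nlinarith
  have hpig : ∃ T ∈ (univ : Finset K).powersetCard 3, ∃ T' ∈ (univ : Finset K).powersetCard 3,
      T ≠ T' ∧ (fun S : Finset K => (∑ x ∈ S, x, ∑ x ∈ S, x ^ 3)) T =
        (fun S : Finset K => (∑ x ∈ S, x, ∑ x ∈ S, x ^ 3)) T' := by
    apply Finset.exists_ne_map_eq_of_card_lt_of_maps_to (t := (univ : Finset (K × K)))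
    · rw [Finset.card_powersetCard, Finset.card_univ, Finset.card_univ, Fintype.card_prod]
      exact hchoose _ hK
    · intro S _; simp
  obtain ⟨T, hT, T', hT', hne, heq⟩ := hpig
  rw [Finset.mem_powersetCard] at hT hT'
  simp only [Prod.mk.injEq] at heq
  have hself : ∀ y : K, y + y = 0 := fun y => CharTwo.add_self_eq_zero y
  have h1 : ∑ x ∈ T, x + ∑ x ∈ T', x = 0 := by rw [heq.1, hself]
  have h3 : ∑ x ∈ T, x ^ 3 + ∑ x ∈ T', x ^ 3 = 0 := by rw [heq.2, hself]
  have h5 := fifth_ne hT.2 hT'.2 hne h1 h3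
  obtain ⟨x, y, z, hxy, hxz, hyz, rfl⟩ := Finset.card_eq_three.1 hT.2
  obtain ⟨x', y', z', hxy', hxz', hyz', rfl⟩ := Finset.card_eq_three.1 hT'.2
  have hs : ∀ f : K → K, ∑ l : Fin 6, f ((![x, y, z, x', y', z'] : Fin 6 → K) l) =
      ∑ u ∈ {x, y, z}, f u + ∑ u ∈ {x', y', z'}, f u := by
    intro f
    rw [Finset.sum_insert (by simp [hxy, hxz]), Finset.sum_insert (by simp [hyz]),
      Finset.sum_singleton, Finset.sum_insert (by simp [hxy', hxz']),
      Finset.sum_insert (by simp [hyz']), Finset.sum_singleton]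
    simp [Fin.sum_univ_succ]
    ring
  refine ⟨![x, y, z, x', y', z'], ?_, ?_, ?_⟩
  · rw [hs (fun u => u)]; exact h1
  · rw [hs (fun u => u ^ 3)]; exact h3
  · rw [hs (fun u => u ^ 5)]; exact h5

end Pool.Agent.H587R3
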