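import Pool.Agent.H587R3.Count

set_option autoImplicit false

/-! Walking down a canonical tree, substitutions, and the lower bound argument. -/

namespace Pool.Agent.H587R3

open Finset

variable {N : ℕ}

lemma walk {F : List (Finset (Edge N))} : ∀ s : ℕ, ∀ (M π : Finset (Edge N)),
    ¬ Path F s M → IsM π → M ⊆ π → π.card + 2 * s ≤ N →
    ∃ π' τ', π ⊆ π' ∧ IsM π' ∧ π'.card ≤ π.card + 2 * s ∧ M ⊆ τ' ∧ τ' ⊆ π' ∧
      τ'.card ≤ M.card + 2 * s ∧ ((∃ τ ∈ F, τ ⊆ τ') ∨ ∀ τ ∈ F, ¬ IsM (τ' ∪ τ)) := by
  classical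
  intro s
  induction s using Nat.strong_induction_on with
  | _ s ih =>
    intro M π hP hπ hMπ hc
    cases hf : first F M with
    | none =>
      exact ⟨π, M, Subset.refl _, hπ, by omega, Subset.refl _, hMπ, by omega,
        Or.inr (first_none hf)⟩
    | some τ =>
      have hτ := first_some hf
      rcases (τ \ M).eq_empty_or_nonempty with h0 | h0
      · exact ⟨π, M, Subset.refl _, hπ, by omega, Subset.refl _, hMπ, by omega,
          Or.inl ⟨τ, hτ.2, sdiff_eq_empty_iff_subset.1 h0⟩⟩
      · have hs : (τ \ M).card < s := by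
          by_contra hcon
          exact hP (Path.last hf (not_lt.1 hcon))
        set σ := τ \ M with hσ
        have hpos : 0 < σ.card := card_pos.2 h0
        obtain ⟨π₁, h1, h2, h3, h4⟩ := exists_coverE hπ σ (by omega)
        set β := π₁.filter fun e' => ∃ e ∈ σ, e'.1 = e.1 ∨ e'.2 = e.2 with hβ
        have hβsub : β ⊆ π₁ := filter_subset _ _
        have hap : Apart M σ := hτ.1.apart_sdiff
        have hL : Legal M σ β := by
          refine ⟨h2.subset hβsub, ?_, ?_, ?_⟩
          · intro e he e' he'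
            rw [hβ, mem_filter] at he'
            obtain ⟨he1, e2, he2, h5⟩ := he'
            have h6 : ∀ h : e.1 = e'.1 ∨ e.2 = e'.2, False := by
              intro h
              have := h2 e (h1 (hMπ he)) e' he1 h
              subst this
              rcases h5 with h5 | h5
              · exact (hap e he e2 he2).1 h5
              · exact (hap e he e2 he2).2 h5
            exact ⟨fun h => h6 (Or.inl h), fun h => h6 (Or.inr h)⟩
          · intro e he
            obtain ⟨⟨a, ha, ha'⟩, b, hb, hb'⟩ := h4 e he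
            exact ⟨⟨a, mem_filter.2 ⟨ha, e, he, Or.inl ha'⟩, ha'⟩,
              b, mem_filter.2 ⟨hb, e, he, Or.inr hb'⟩, hb'⟩
          · intro e' he'
            exact (mem_filter.1 he').2
        have hβc : β.card ≤ 2 * σ.card := by
          have hsub : β ⊆ σ.biUnion fun e =>
              (π₁.filter fun e' => e'.1 = e.1) ∪ (π₁.filter fun e' => e'.2 = e.2) := by
            intro e' he'
            obtain ⟨h5, e, he, h6⟩ := mem_filter.1 he'
            refine mem_biUnion.2 ⟨e, he, mem_union.2 ?_⟩
            rcases h6 with h6 | h6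
            · exact Or.inl (mem_filter.2 ⟨h5, h6⟩)
            · exact Or.inr (mem_filter.2 ⟨h5, h6⟩)
          refine (card_le_card hsub).trans (card_biUnion_le.trans ?_)
          refine (sum_le_card_nsmul _ _ 2 fun e he => ?_).trans (by rw [smul_eq_mul, mul_comm])
          refine (card_union_le _ _).trans ?_
          have c1 : (π₁.filter fun e' => e'.1 = e.1).card ≤ 1 := by
            rw [card_le_one]
            intro a ha b hb
            rw [mem_filter] at ha hb
            exact h2 a ha.1 b hb.1 (Or.inl (ha.2.trans hb.2.symm))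
          have c2 : (π₁.filter fun e' => e'.2 = e.2).card ≤ 1 := by
            rw [card_le_one]
            intro a ha b hb
            rw [mem_filter] at ha hb
            exact h2 a ha.1 b hb.1 (Or.inr (ha.2.trans hb.2.symm))
          omega
        obtain ⟨π', τ', h5, h6, h7, h8, h9, h10, h11⟩ := ih (s - σ.card) (by omega) (M ∪ β) π₁
          (fun hp => hP (Path.step hf h0 hs.le hL hp)) h2
          (union_subset (hMπ.trans h1) hβsub) (by omega)
        refine ⟨π', τ', h1.trans h5, h6, by omega, subset_union_left.trans h8, h9, ?_, h11⟩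
        have := card_union_le M β
        omega

/-- substitution of matching variables and constants -/
abbrev Sub (X : Type) (N : ℕ) : Type := X → Edge N ⊕ Bool

open Classical in
/-- the assignment defined by a matching -/
noncomputable def asg {X : Type} (v : Sub X N) (π : Finset (Edge N)) (x : X) : Bool :=
  match v x with
  | Sum.inl e => decide (e ∈ π)
  | Sum.inr b => b

lemma asg_inl {X : Type} {v : Sub X N} {π : Finset (Edge N)} {x : X} {e : Edge N}
    (h : v x = Sum.inl e) : asg v π x = true ↔ e ∈ π := by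
  unfold asg; rw [h]; simp

lemma asg_inr {X : Type} {v : Sub X N} {π : Finset (Edge N)} {x : X} {b : Bool}
    (h : v x = Sum.inr b) : asg v π x = b := by
  unfold asg; rw [h]

/-- a term is satisfied -/
def SatT {X : Type} (a : X → Bool) (T : Finset (X × Bool)) : Prop := ∀ l ∈ T, a l.1 = l.2

/-- a literal is forced by `τ` -/
def Forced {X : Type} (v : Sub X N) (τ : Finset (Edge N)) (l : X × Bool) : Prop :=
  match v l.1 with
  | Sum.inl e => if l.2 then e ∈ τ else ∃ j, j ≠ e.2 ∧ (e.1, j) ∈ τ
  | Sum.inr b => b = l.2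

lemma Forced.sat {X : Type} {v : Sub X N} {τ π : Finset (Edge N)} {l : X × Bool}
    (h : Forced v τ l) (hτ : τ ⊆ π) (hπ : IsM π) : asg v π l.1 = l.2 := by
  obtain ⟨x, b⟩ := l
  unfold Forced at h
  simp only at h ⊢
  cases hv : v x with
  | inr c => rw [hv] at h; rw [asg_inr hv]; exact h
  | inl e =>
    rw [hv] at h
    cases b with
    | true => exact (asg_inl hv).2 (hτ (by simpa using h))
    | false =>
      simp only [Bool.false_eq_true, if_false] at h
      obtain ⟨j, hj, hm⟩ := h
      by_contra hcon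
      rw [Bool.not_eq_false, asg_inl hv] at hcon
      have := hπ _ (hτ hm) _ hcon (Or.inl rfl)
      exact hj (congrArg Prod.snd this)

open Classical in
/-- the matching DNF of a line -/
noncomputable def mdnf {X : Type} (v : Sub X N) (D : Set (Finset (X × Bool))) (w : ℕ) :
    List (Finset (Edge N)) :=
  (univ.filter fun τ : Finset (Edge N) => τ.card ≤ w ∧ ∃ T ∈ D, ∀ l ∈ T, Forced v τ l).toList

lemma mem_mdnf {X : Type} {v : Sub X N} {D : Set (Finset (X × Bool))} {w : ℕ}
    {τ : Finset (Edge N)} :
    τ ∈ mdnf v D w ↔ τ.card ≤ w ∧ ∃ T ∈ D, ∀ l ∈ T, Forced v τ l := by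
  classical
  simp [mdnf]

/-- a line is satisfied -/
def SatD {X : Type} (a : X → Bool) (D : Set (Finset (X × Bool))) : Prop := ∃ T ∈ D, SatT a T

lemma sat_of_mem_mdnf {X : Type} {v : Sub X N} {D : Set (Finset (X × Bool))} {w : ℕ}
    {τ π : Finset (Edge N)} (h : τ ∈ mdnf v D w) (hτ : τ ⊆ π) (hπ : IsM π) :
    SatD (asg v π) D := by
  obtain ⟨-, T, hT, hF⟩ := mem_mdnf.1 h
  exact ⟨T, hT, fun l hl => (hF l hl).sat hτ hπ⟩

lemma exists_mdnf {X : Type} {v : Sub X N} {D : Set (Finset (X × Bool))} {w : ℕ}
    (hD : ∀ T ∈ D, T.card ≤ w) {π : Finset (Edge N)} (hπ : IsM π) (hc : π.card + 2 * w ≤ N)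
    (h : SatD (asg v π) D) : ∃ π', π ⊆ π' ∧ IsM π' ∧ ∃ τ ∈ mdnf v D w, τ ⊆ π' := by
  classical
  obtain ⟨T, hT, hs⟩ := h
  have hTw := hD T hT
  -- the pigeons and holes mentioned
  let g : X × Bool → Option (Edge N) := fun l => (v l.1).getLeft?
  let E : Finset (Edge N) := T.biUnion fun l => (g l).toFinset
  have hE : E.card ≤ w := by
    refine (card_biUnion_le.trans ((sum_le_card_nsmul _ _ 1 fun l _ => ?_))).trans
      (by rw [smul_eq_mul, mul_one]; exact hTw)
    cases g l <;> simp
  have hEm : ∀ l ∈ T, ∀ e, v l.1 = Sum.inl e → e ∈ E := by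
    intro l hl e he
    refine mem_biUnion.2 ⟨l, hl, ?_⟩
    simp [g, he]
  have hI : (E.image Prod.fst).card ≤ w := card_image_le.trans hE
  have hH : (E.image Prod.snd).card ≤ w := card_image_le.trans hE
  obtain ⟨π', h1, h2, h3, h4, h5⟩ := exists_cover hπ (E.image Prod.snd) (E.image Prod.fst)
    (by omega)
  let τ := π'.filter fun e => e.1 ∈ E.image Prod.fst
  refine ⟨π', h1, h2, τ, mem_mdnf.2 ⟨?_, T, hT, ?_⟩, filter_subset _ _⟩
  · have : τ.card ≤ (E.image Prod.fst).card := by
      rw [← (h2.subset (filter_subset _ _) : IsM τ).card_fst]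
      refine card_le_card ?_
      intro i hi
      obtain ⟨e, he, rfl⟩ := mem_image.1 hi
      exact (mem_filter.1 he).2
    omega
  · rintro ⟨x, b⟩ hl
    have hsl := hs _ hl
    simp only at hsl
    unfold Forced
    simp only
    cases hv : v x with
    | inr c => rw [asg_inr hv] at hsl; exact hsl
    | inl e =>
      have heE : e ∈ E := hEm _ hl e hv
      simp only
      cases b with
      | true =>
        rw [asg_inl hv] at hsl
        simp only [if_true]
        exact mem_filter.2 ⟨h1 hsl, mem_image_of_mem _ heE⟩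
      | false =>
        simp only [Bool.false_eq_true, if_false]
        have hne : e ∉ π := by
          intro h6
          rw [(asg_inl hv).2 h6] at hsl
          exact absurd hsl (by simp)
        obtain ⟨e', he', h7⟩ := h4 e.1 (mem_image_of_mem _ heE)
        refine ⟨e'.2, ?_, ?_⟩
        · intro h8
          have : e' = e := Prod.ext h7 h8
          rw [this] at he'
          exact h5 e he' hne (mem_image_of_mem _ heE)
        · rw [← h7]
          exact mem_filter.2 ⟨he', by rw [h7]; exact mem_image_of_mem _ heE⟩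

/-- the lower bound argument -/
theorem core {X : Type} (v : Sub X N) (Ax : Set ((X → Bool) → Prop))
    (hAx : ∀ C ∈ Ax, ∀ π : Finset (Edge N), IsM π → π.card < N →
      ∃ π', π ⊆ π' ∧ IsM π' ∧ π'.card ≤ π.card + 1 ∧
        ∀ π'', π' ⊆ π'' → IsM π'' → C (asg v π''))
    {S w f ℓ s : ℕ} (lines : Fin S → Set (Finset (X × Bool)))
    (hw : ∀ i, ∀ T ∈ lines i, T.card ≤ w)
    (hinf : ∀ i, ∃ P : Finset (Fin S), ∃ Q : List ((X → Bool) → Prop), P.card ≤ f ∧
      Q.length ≤ f ∧ (∀ j ∈ P, j < i) ∧ (∀ C ∈ Q, C ∈ Ax) ∧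
      ∀ a, (∀ j ∈ P, SatD a (lines j)) → (∀ C ∈ Q, C a) → SatD a (lines i))
    (hend : ∃ i, ∀ a, ¬ SatD a (lines i))
    (hℓ : 2 * s * (f + 1) + f + 2 * w + 1 ≤ ℓ) (hℓN : ℓ ≤ N)
    (hnum : S * (2 * (w * (ℓ * (ℓ + 1))) * (ℓ * (ℓ + 1))) ^ s < (N - ℓ) ^ s) : False := by
  classical
  obtain ⟨ρ, hρ, hρc, hgood⟩ := exists_good (univ : Finset (Fin S))
    (fun i => mdnf v (lines i) w) (k := w) (ℓ := ℓ) (s := s) (by omega) hℓN
    (by intro i _ τ hτ; exact (mem_mdnf.1 hτ).1) (by simpa using hnum)
  -- no small extension falsifies a line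
  have key : ∀ i : Fin S, ∀ τ' : Finset (Edge N), IsM τ' → ρ ⊆ τ' → τ'.card ≤ ρ.card + 2 * s →
      ¬ ∀ τ ∈ mdnf v (lines i) w, ¬ IsM (τ' ∪ τ) := by
    intro i
    induction i using WellFoundedLT.induction with
    | _ i ih =>
      intro τ' hτ'm hρτ' hτ'c hfal
      obtain ⟨P, Q, hP, hQ, hlt, hQAx, himp⟩ := hinf i
      -- treat premises
      have hprem : ∀ P' : Finset (Fin S), P' ⊆ P → ∃ π, τ' ⊆ π ∧ IsM π ∧
          π.card ≤ τ'.card + 2 * s * P'.card ∧
          ∀ j ∈ P', ∀ π'', π ⊆ π'' → IsM π'' → SatD (asg v π'') (lines j) := by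
        intro P'
        induction P' using Finset.induction_on with
        | empty =>
          intro _
          exact ⟨τ', Subset.refl _, hτ'm, by omega, by simp⟩
        | @insert j P' hj ih2 =>
          intro hsub
          obtain ⟨π, h1, h2, h3, h4⟩ := ih2 ((subset_insert _ _).trans hsub)
          have hcP : P'.card + 1 ≤ f := by
            rw [← card_insert_of_notMem hj]; exact (card_le_card hsub).trans hP
          have hmul : 2 * s * (P'.card + 1) ≤ 2 * s * f := Nat.mul_le_mul_left _ hcP
          have hmul2 : 2 * s * (P'.card + 1) = 2 * s * P'.card + 2 * s := by ring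
          have hmul3 : 2 * s * (f + 1) = 2 * s * f + 2 * s := by ring
          obtain ⟨π', τj, h5, h6, h7, h8, h9, h10, h11⟩ := walk s ρ π
            (hgood j (mem_univ _)) h2 (hρτ'.trans h1) (by omega)
          have h12 : ∃ τ ∈ mdnf v (lines j) w, τ ⊆ τj := by
            rcases h11 with h11 | h11
            · exact h11
            · exact absurd h11 (ih j (hlt j (hsub (mem_insert_self _ _))) τj
                (h6.subset h9) h8 (by omega))
          obtain ⟨τ, hτ, hττ⟩ := h12
          refine ⟨π', h1.trans h5, h6, ?_, ?_⟩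
          · rw [card_insert_of_notMem hj]; omega
          · intro j' hj' π'' h13 h14
            rcases mem_insert.1 hj' with rfl | hj'
            · exact sat_of_mem_mdnf hτ ((hττ.trans h9).trans h13) h14
            · exact h4 j' hj' π'' (h5.trans h13) h14
      obtain ⟨π, h1, h2, h3, h4⟩ := hprem P (Subset.refl _)
      have hmul : 2 * s * P.card ≤ 2 * s * f := Nat.mul_le_mul_left _ hP
      have hmul3 : 2 * s * (f + 1) = 2 * s * f + 2 * s := by ring
      have hax : ∀ Q' : List ((X → Bool) → Prop), (∀ C ∈ Q', C ∈ Ax) → Q'.length ≤ f →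
          ∃ π', π ⊆ π' ∧ IsM π' ∧ π'.card ≤ π.card + Q'.length ∧
          ∀ C ∈ Q', ∀ π'', π' ⊆ π'' → IsM π'' → C (asg v π'') := by
        intro Q'
        induction Q' with
        | nil => intro _ _; exact ⟨π, Subset.refl _, h2, by simp, by simp⟩
        | cons C Q' ih3 =>
          intro h5 h6
          rw [List.length_cons] at h6
          obtain ⟨π', h7, h8, h9, h10⟩ := ih3 (fun C' hC' => h5 C' (List.mem_cons_of_mem _ hC'))
            (by omega)
          obtain ⟨π₂, h11, h12, h13, h14⟩ := hAx C (h5 C List.mem_cons_self) π' h8 (by omega)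
          refine ⟨π₂, h7.trans h11, h12, ?_, ?_⟩
          · rw [List.length_cons]; omega
          · intro C' hC' π'' h15 h16
            rcases List.mem_cons.1 hC' with rfl | hC'
            · exact h14 π'' h15 h16
            · exact h10 C' hC' π'' (h11.trans h15) h16
      obtain ⟨π', h5, h6, h7, h8⟩ := hax Q hQAx hQ
      have hsat : SatD (asg v π') (lines i) :=
        himp _ (fun j hj => h4 j hj π' h5 h6) (fun C hC => h8 C hC π' (Subset.refl _) h6)
      obtain ⟨π₃, h9, h10, τ, h11, h12⟩ := exists_mdnf (hw i) h6 (by omega) hsat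
      exact hfal τ h11 (h10.subset (union_subset ((h1.trans h5).trans h9) h12))
  obtain ⟨i, hi⟩ := hend
  refine key i ρ hρ (Subset.refl _) (by omega) ?_
  intro τ hτ hm
  exact hi _ (sat_of_mem_mdnf hτ subset_union_right hm)

end Pool.Agent.H587R3
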